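import Pool.Agent.L7lead.PoleForms
import Pool.Agent.Y137.GN.Main

/-!
# The order of the zeta functions of abelian varieties over finite fields
-/

set_option autoImplicit false
set_option linter.unusedSectionVars false

namespace Pool.Agent.L7lead.PoleFive

open Module NumberField Pool.Agent.H204R3.CM Pool.Agent.W547.KB Pool.Agent.W547.LD
  Pool.Agent.W495.TA Pool.Agent.Y137.SF Pool.Agent.Y137.GN Pool.Agent.H868R3.TwoOdd
  Pool.Agent.L7lead.PoleForms
open scoped TensorProduct

noncomputable section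

section cm

variable {E : Type} [Field E] [NumberField E]

theorem prod_emb {Φ : Set (E →+* ℂ)} (hΦ : IsCMType Φ) (x : E) (q : ℝ)
    (hx : ∀ φ : E →+* ℂ, ‖φ x‖ ^ 2 = q) :
    ∏ φ : E →+* ℂ, φ x = (q : ℂ) ^ (finrank ℚ E / 2) ∧ Even (finrank ℚ E) := by
  classical
  have hconj : ∀ φ : E →+* ℂ,
      ComplexEmbedding.conjugate (ComplexEmbedding.conjugate φ) = φ := fun φ => by
    ext y
    simp
  have hS : (Finset.univ.filter fun φ : E →+* ℂ => φ ∉ Φ) =
      (Finset.univ.filter fun φ : E →+* ℂ => φ ∈ Φ).image ComplexEmbedding.conjugate := by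
    ext φ
    rw [Finset.mem_filter, Finset.mem_image]
    constructor
    · rintro ⟨-, h⟩
      refine ⟨ComplexEmbedding.conjugate φ, Finset.mem_filter.2 ⟨Finset.mem_univ _, ?_⟩, hconj φ⟩
      rw [hΦ, hconj]
      exact h
    · rintro ⟨ψ, h, rfl⟩
      exact ⟨Finset.mem_univ _, (hΦ ψ).1 (Finset.mem_filter.1 h).2⟩
  have hinj : Function.Injective (ComplexEmbedding.conjugate : (E →+* ℂ) → (E →+* ℂ)) := by
    intro φ ψ h
    rw [← hconj φ, h, hconj]
  have hcard : (Finset.univ.filter fun φ : E →+* ℂ => φ ∈ Φ).card +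
      (Finset.univ.filter fun φ : E →+* ℂ => φ ∉ Φ).card = finrank ℚ E := by
    rw [Finset.card_filter_add_card_filter_not]
    exact Embeddings.card E ℂ
  have hcard2 : finrank ℚ E = 2 * (Finset.univ.filter fun φ : E →+* ℂ => φ ∈ Φ).card := by
    rw [hS, Finset.card_image_of_injective _ hinj] at hcard
    omega
  constructor
  · rw [hcard2, Nat.mul_div_cancel_left _ two_pos,
      ← Finset.prod_filter_mul_prod_filter_not Finset.univ (fun φ : E →+* ℂ => φ ∈ Φ), hS,
      Finset.prod_image hinj.injOn, ← Finset.prod_mul_distrib]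
    rw [Finset.prod_congr rfl fun φ _ => ?_, Finset.prod_const]
    rw [ComplexEmbedding.conjugate_coe_eq, Complex.mul_conj, Complex.normSq_eq_norm_sq, hx]
  · rw [hcard2]
    exact even_two_mul _

end cm

variable {p : ℕ} [Fact p.Prime] {ν : PadicAlgCl p ≃+* ℂ}

/-- A field that contains all the conjugates of the fields of `Y`. -/
theorem exists_big (X : CMAV) : ∃ (L : Type) (_ : Field L) (_ : NumberField L) (j : L →+* ℂ),
    Big X j := by
  rcases isEmpty_or_nonempty X.I with hI | hI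
  · exact ⟨ℚ, inferInstance, inferInstance, algebraMap ℚ ℂ, fun i => (hI.false i).elim⟩
  · obtain ⟨L, i1, i2, _, _, j, hj⟩ := exists_cm X
    exact ⟨L, i1, i2, j, hj⟩

/-- The eigenvalues of the Frobenius endomorphism. -/
theorem exists_eigen (Y : RedAV p ν) : ∃ (L : Type) (_ : Field L) (_ : NumberField L)
    (j : L →+* ℂ) (lam : Fin (finrank ℚ Y.X.H1) → L),
    (∀ i, ‖j (lam i)‖ ^ 2 = (p : ℝ) ^ Y.a) ∧
    ∏ i, lam i = ((p : L) ^ Y.a) ^ (finrank ℚ Y.X.H1 / 2) ∧ Even (finrank ℚ Y.X.H1) ∧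
    ∀ (Ω : Type) [Field Ω] [CharZero Ω] (jO : L →+* Ω),
      ∃ b : Basis (Fin (finrank ℚ Y.X.H1)) Ω (TM Ω Y), ∀ (s : ℕ) i,
        (F Ω Y ^ s) (b i) = jO (lam i ^ s) • b i := by
  classical
  obtain ⟨L, _, _, j, hB⟩ := exists_big Y.X
  have := fun i => Pool.Agent.W67.TA.finite_emb j hB i
  let : ∀ i, Fintype ((Y.X.factor i).E →+* L) := fun i => Fintype.ofFinite _
  have hcard : Fintype.card (Wt Y.X L) = finrank ℚ Y.X.H1 := by
    rw [← Nat.card_eq_fintype_card]
    exact Pool.Agent.W67.TA.card_wt j hB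
  let E : Wt Y.X L ≃ Fin (finrank ℚ Y.X.H1) := Fintype.equivFinOfCardEq hcard
  let lam : Fin (finrank ℚ Y.X.H1) → L := fun i => (E.symm i).2 (Y.π (E.symm i).1)
  have hfr : ∀ i, (finrank ℚ (Y.X.factor i).E) / 2 * 2 = finrank ℚ (Y.X.factor i).E := fun i =>
    Nat.div_mul_cancel (prod_emb (Y.X.factor i).isCMType (Y.π i) _ (Y.frob i).weil).2.two_dvd
  have h4 : finrank ℚ Y.X.H1 = ∑ i, finrank ℚ (Y.X.factor i).E := Module.finrank_pi_fintype ℚ
  have h5 : finrank ℚ Y.X.H1 = (∑ i, finrank ℚ (Y.X.factor i).E / 2) * 2 := by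
    rw [h4, Finset.sum_mul]
    exact Finset.sum_congr rfl fun i _ => (hfr i).symm
  refine ⟨L, inferInstance, inferInstance, j, lam, ?_, ?_, ?_, ?_⟩
  · intro i
    exact (Y.frob (E.symm i).1).weil (j.comp (E.symm i).2)
  · apply j.injective
    rw [map_prod]
    have h1 : ∏ i, j (lam i) = ∏ w : Wt Y.X L, j (w.2 (Y.π w.1)) :=
      Equiv.prod_comp E.symm fun w : Wt Y.X L => j (w.2 (Y.π w.1))
    have h2 : ∏ w : Wt Y.X L, j (w.2 (Y.π w.1)) =
        ∏ i, ∏ φ : (Y.X.factor i).E →+* L, j (φ (Y.π i)) :=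
      Fintype.prod_sigma (fun w : Wt Y.X L => j (w.2 (Y.π w.1)))
    have h3 : ∀ i, ∏ φ : (Y.X.factor i).E →+* L, j (φ (Y.π i)) =
        (((p : ℝ) ^ Y.a : ℝ) : ℂ) ^ (finrank ℚ (Y.X.factor i).E / 2) := by
      intro i
      rw [← (prod_emb (Y.X.factor i).isCMType (Y.π i) _ (Y.frob i).weil).1]
      exact Function.Bijective.prod_comp (Pool.Agent.W67.TA.bij_emb j hB i)
        (fun ψ : (Y.X.factor i).E →+* ℂ => ψ (Y.π i))
    rw [h1, h2, Finset.prod_congr rfl fun i _ => h3 i, Finset.prod_pow_eq_pow_sum]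
    have h6 : finrank ℚ Y.X.H1 / 2 = ∑ i, finrank ℚ (Y.X.factor i).E / 2 := by
      rw [h5, Nat.mul_div_cancel _ two_pos]
    rw [h6]
    push_cast
    rw [map_pow, map_pow, map_natCast]
  · rw [h5]
    exact even_two.mul_left _
  · intro Ω _ _ jO
    obtain ⟨e, h1, h2⟩ := Pool.Agent.W67.TA.basis p ν Ω L j jO Y hB
    refine ⟨e.reindex E, fun s i => ?_⟩
    rw [Basis.reindex_apply, F_pow_e jO e h1 h2, map_pow]

/-- The zeta function of the abelian variety `Y` over the extension of degree `s` of the ground field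
with `q = p ^ a` elements, at `z`: the product of the
`det (1 - q ^ (- s z) F ^ s | Λ ^ j T) ^ ((-1) ^ (j + 1))`, where `T` is the Tate module (with complex
coefficients); the endomorphism of `H ^ j (Y)`, the dual of `Λ ^ j T`, is the transpose. -/
def zetaOf (Y : RedAV p ν) (s : ℕ) (z : ℂ) : ℂ :=
  zeta (((p : ℝ) ^ Y.a) ^ s) (F ℂ Y ^ s) z

variable (Ω : Type) [Field Ω] [CharZero Ω]

/-- The classes in the system `AlgS` of codimension `n` that are Tate classes over the extension of
degree `s`. -/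
def algTate (Y : RedAV p ν) (s n : ℕ) : Set ((TM Ω Y) [⋀^Fin (2 * n)]→ₗ[Ω] Ω) :=
  {f | IsTateClass Ω Y s n f ∧ AlgS Ω {4, 6} Y (Fin (2 * n)) f}

/-- The dimension of `Y`. -/
def dim (Y : RedAV p ν) : ℕ := finrank ℚ Y.X.H1 / 2

/-- The intersection numbers of the class `f` with the classes of complementary codimension, with values
in the top cohomology (the space of the forms in the variables `v`). -/
def intersection (Y : RedAV p ν) (s n : ℕ) (f : algTate Ω Y s n)
    (x : algTate Ω Y s (dim Y - n) × (Fin (2 * n) ⊕ Fin (2 * (dim Y - n)) → TM Ω Y)) : Ω :=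
  wedge f.1 x.1.1 x.2

/-- The rank of the group of cycles of codimension `n` modulo numerical equivalence: the rank of the
matrix of the intersection numbers. -/
def numRank (Y : RedAV p ν) (s n : ℕ) : ℕ := matRank Ω (intersection Ω Y s n)

/-- **The pole formula.** -/
theorem main [IsAlgClosed Ω] (Y : RedAV p ν) (hY : IsGoodAVS Y) (s : ℕ) (hs : 0 < s) (n : ℕ) :
    meromorphicOrderAt (zetaOf Y s) (n : ℂ) = ((-(numRank Ω Y s n : ℤ) : ℤ) : WithTop ℤ) ∧
    (∀ f, IsTateClass Ω Y s n f → f ∈ algTate Ω Y s n) ∧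
    (n ≤ dim Y → ∀ f ∈ algTate Ω Y s n,
      (∀ g ∈ algTate Ω Y s (dim Y - n), ∀ v, wedge f g v = 0) → f = 0) := by
  classical
  obtain ⟨L, _, _, j, lam, hweil, hprod, heven, hbas⟩ := exists_eigen Y
  have hp1 : (1 : ℝ) < p := by exact_mod_cast (Fact.out : p.Prime).one_lt
  have hTate : ∀ n f, IsTateClass Ω Y s n f → f ∈ algTate Ω Y s n := fun n f hf =>
    ⟨hf, algS_goodS hY s n hs f hf⟩
  let jO : L →+* Ω := ((IsAlgClosed.lift : L →ₐ[ℚ] Ω) : L →+* Ω)
  obtain ⟨b, hb⟩ := hbas Ω jO
  obtain ⟨bC, hbC⟩ := hbas ℂ j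
  -- numerical equivalence
  have hnum : n ≤ dim Y → ∀ f ∈ algTate Ω Y s n,
      (∀ g ∈ algTate Ω Y s (dim Y - n), ∀ v, wedge f g v = 0) → f = 0 := by
    intro hn f hfm hf
    by_contra hf0
    have hd : 2 * n + 2 * (dim Y - n) = finrank ℚ Y.X.H1 := by
      have := Nat.div_mul_cancel heven.two_dvd
      unfold dim at hn ⊢
      omega
    have hcc : ((p : Ω) ^ Y.a) ^ (n * s) * ((p : Ω) ^ Y.a) ^ ((dim Y - n) * s) =
        ∏ i, jO (lam i ^ s) := by
      rw [← map_prod, Finset.prod_pow, hprod, map_pow, map_pow, map_pow, map_natCast,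
        ← pow_add, ← add_mul]
      unfold dim at hn ⊢
      rw [Nat.add_sub_cancel' hn, pow_mul]
    have hc0 : ((p : Ω) ^ Y.a) ^ (n * s) ≠ 0 :=
      pow_ne_zero _ (pow_ne_zero _ (Nat.cast_ne_zero.2 (Fact.out : p.Prime).ne_zero))
    obtain ⟨g, hg, v, hv⟩ := wedge_nondeg b (F Ω Y ^ s) (fun i => jO (lam i ^ s)) (hb s) hd hcc
      hc0 f hfm.1 hf0
    exact hv (hf g (hTate _ g hg) v)
  refine ⟨?_, hTate n, hnum⟩
  -- the number of the Tate classes
  have hcast : ∀ J : Set.powersetCard (Fin (finrank ℚ Y.X.H1)) (2 * n),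
      ∀ {R : Type} [Field R] [CharZero R] (h : L →+* R),
      pr (fun i => h (lam i ^ s)) J = ((p : R) ^ Y.a) ^ (n * s) ↔
        pr (fun i => lam i ^ s) J = ((p : L) ^ Y.a) ^ (n * s) := by
    intro J R _ _ h
    have h1 : pr (fun i => h (lam i ^ s)) J = h (pr (fun i => lam i ^ s) J) := by
      unfold pr
      rw [map_prod]
    have h2 : ((p : R) ^ Y.a) ^ (n * s) = h (((p : L) ^ Y.a) ^ (n * s)) := by
      rw [map_pow, map_pow, map_natCast]
    rw [h1, h2]
    exact h.injective.eq_iff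
  set EF := eigForms (F Ω Y ^ s) (((p : Ω) ^ Y.a) ^ (n * s)) (2 * n) with hEF
  have hmem : ∀ f, f ∈ EF ↔ f ∈ algTate Ω Y s n := fun f =>
    ⟨fun hf => hTate n f hf, fun hf => hf.1⟩
  have hN : finrank Ω EF =
      Nat.card {J : Set.powersetCard (Fin (finrank ℚ Y.X.H1)) (2 * n) //
        pr (fun i => lam i ^ s) J = ((p : L) ^ Y.a) ^ (n * s)} := by
    rw [hEF, finrank_eigForms b (F Ω Y ^ s) (fun i => jO (lam i ^ s)) (hb s)]
    exact Nat.card_congr (Equiv.subtypeEquivRight fun J => hcast J jO)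
  have hrank : numRank Ω Y s n = finrank Ω EF := by
    let T : EF →ₗ[Ω] (algTate Ω Y s (dim Y - n) ×
        (Fin (2 * n) ⊕ Fin (2 * (dim Y - n)) → TM Ω Y) → Ω) :=
      { toFun := fun f x => wedge f.1 x.1.1 x.2
        map_add' := by
          intro f f'
          funext x
          change wedge (f + f').1 x.1.1 x.2 = wedge f.1 x.1.1 x.2 + wedge f'.1 x.1.1 x.2
          unfold wedge
          rw [← Finset.sum_add_distrib]
          refine Finset.sum_congr rfl fun σ _ => ?_
          rw [Submodule.coe_add, AlternatingMap.add_apply]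
          ring
        map_smul' := by
          intro c f
          funext x
          change wedge (c • f).1 x.1.1 x.2 = c * wedge f.1 x.1.1 x.2
          unfold wedge
          rw [Finset.mul_sum]
          refine Finset.sum_congr rfl fun σ _ => ?_
          rw [Submodule.coe_smul, AlternatingMap.smul_apply, smul_eq_mul]
          ring }
    have hrange : Submodule.span Ω (Set.range (intersection Ω Y s n)) = LinearMap.range T := by
      have h1 : Set.range (intersection Ω Y s n) = LinearMap.range T := by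
        ext x
        constructor
        · rintro ⟨f, rfl⟩
          exact ⟨⟨f.1, (hmem f.1).2 f.2⟩, rfl⟩
        · rintro ⟨f, rfl⟩
          exact ⟨⟨f.1, (hmem f.1).1 f.2⟩, rfl⟩
      rw [h1, Submodule.span_eq]
    unfold numRank matRank
    rw [hrange]
    have hinj : Function.Injective T := by
      by_cases hn : n ≤ dim Y
      · intro f g hfg
        have h1 : f.1 - g.1 = 0 := by
          refine hnum hn _ ((hmem _).1 (EF.sub_mem f.2 g.2)) fun h hh v => ?_
          have h3 := congrFun hfg ⟨⟨h, hh⟩, v⟩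
          change wedge f.1 h v = wedge g.1 h v at h3
          have h4 : wedge (f.1 - g.1) h v = wedge f.1 h v - wedge g.1 h v := by
            unfold wedge
            rw [← Finset.sum_sub_distrib]
            refine Finset.sum_congr rfl fun σ _ => ?_
            rw [AlternatingMap.sub_apply]
            ring
          rw [h4, h3, sub_self]
        exact Subtype.ext (sub_eq_zero.1 h1)
      · have hz : ∀ f : (TM Ω Y) [⋀^Fin (2 * n)]→ₗ[Ω] Ω, f = 0 := by
          intro f
          apply (coords b (2 * n)).injective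
          funext J
          exfalso
          have h1 := Finset.card_le_univ J.1
          have h2 : (J.1).card = 2 * n := Set.powersetCard.mem_iff.1 J.2
          rw [h2, Fintype.card_fin] at h1
          have := Nat.div_mul_cancel heven.two_dvd
          unfold dim at hn
          omega
        intro f g _
        exact Subtype.ext ((hz f.1).trans (hz g.1).symm)
    exact (LinearEquiv.finrank_eq (LinearEquiv.ofInjective _ hinj)).symm
  rw [hrank, hN]
  have hq : (1 : ℝ) < ((p : ℝ) ^ Y.a) ^ s :=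
    one_lt_pow₀ (one_lt_pow₀ hp1 Y.pos.ne') hs.ne'
  have : FiniteDimensional ℂ (TM ℂ Y) := Module.Finite.of_basis bC
  have hord := order_zeta (((p : ℝ) ^ Y.a) ^ s) hq bC (F ℂ Y ^ s) (fun i => j (lam i ^ s))
    (hbC s) (fun i => by
      rw [map_pow, norm_pow, ← pow_mul, mul_comm, pow_mul, hweil]) n
  have hset : Nat.card {J : Set.powersetCard (Fin (finrank ℚ Y.X.H1)) (2 * n) //
        pr (fun i => lam i ^ s) J = ((p : L) ^ Y.a) ^ (n * s)} =
      Nat.card {J : Set.powersetCard (Fin (finrank ℚ Y.X.H1)) (2 * n) //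
        pr (fun i => j (lam i ^ s)) J = ((((p : ℝ) ^ Y.a) ^ s : ℝ) : ℂ) ^ n} := by
    refine Nat.card_congr (Equiv.subtypeEquivRight fun J => ?_)
    rw [← hcast J j]
    push_cast
    rw [← pow_mul _ s n, mul_comm s n]
  rw [hset]
  exact hord

end

end Pool.Agent.L7lead.PoleFive
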