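import Mathlib
import Pool.Agent.H868R3.PoleExt

/-!
# Alternating forms which are eigenvectors of an endomorphism, and the order of zeta functions
-/

set_option autoImplicit false
set_option linter.unusedSectionVars false

namespace Pool.Agent.L7lead.PoleForms

open Module Pool.Agent.H868R3.TwoOdd

section forms

variable {K V : Type*} [Field K] [AddCommGroup V] [Module K V]

/-- The space of the alternating forms `f` in `r` variables with `f (F v) = c * f v`. -/
def eigForms (F : V →ₗ[K] V) (c : K) (r : ℕ) : Submodule K (V [⋀^Fin r]→ₗ[K] K) where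
  carrier := {f | ∀ v : Fin r → V, f (fun k => F (v k)) = c * f v}
  add_mem' {f g} hf hg v := by
    rw [AlternatingMap.add_apply, AlternatingMap.add_apply, hf v, hg v, mul_add]
  zero_mem' v := by
    rw [AlternatingMap.zero_apply, AlternatingMap.zero_apply, mul_zero]
  smul_mem' a f hf v := by
    rw [AlternatingMap.smul_apply, AlternatingMap.smul_apply, hf v, smul_eq_mul, smul_eq_mul]
    ring

theorem mem_eigForms {F : V →ₗ[K] V} {c : K} {r : ℕ} {f : V [⋀^Fin r]→ₗ[K] K} :
    f ∈ eigForms F c r ↔ ∀ v : Fin r → V, f (fun k => F (v k)) = c * f v := Iff.rfl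

variable {d : ℕ} (b : Basis (Fin d) K V)

/-- The product of the numbers `μ i` over the set `J`. -/
noncomputable def pr {R : Type*} [CommMonoid R] {r : ℕ} (μ : Fin d → R)
    (J : Set.powersetCard (Fin d) r) : R :=
  ∏ l, μ (Set.powersetCard.ofFinEmbEquiv.symm J l)

/-- The coordinates of alternating forms. -/
noncomputable def coords (r : ℕ) :
    (V [⋀^Fin r]→ₗ[K] K) ≃ₗ[K] (Set.powersetCard (Fin d) r → K) :=
  exteriorPower.alternatingMapLinearEquiv.trans ((b.exteriorPower r).constr K).symm

theorem coords_apply (r : ℕ) (f : V [⋀^Fin r]→ₗ[K] K) (J : Set.powersetCard (Fin d) r) :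
    coords b r f J = f (fun l => b (Set.powersetCard.ofFinEmbEquiv.symm J l)) := by
  unfold coords
  rw [LinearEquiv.trans_apply, Basis.constr_symm_apply, exteriorPower.basis_apply]
  unfold exteriorPower.ιMulti_family
  rw [exteriorPower.alternatingMapLinearEquiv_apply_ιMulti]
  rfl

variable (F : V →ₗ[K] V) (μ : Fin d → K) (hF : ∀ i, F (b i) = μ i • b i)

include hF in
theorem apply_F {r : ℕ} (f : V [⋀^Fin r]→ₗ[K] K) (t : Fin r → Fin d) :
    f (fun l => F (b (t l))) = (∏ l, μ (t l)) * f (fun l => b (t l)) := by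
  simp only [hF]
  rw [AlternatingMap.map_smul_univ, smul_eq_mul]

include hF in
theorem mem_iff (c : K) (r : ℕ) (f : V [⋀^Fin r]→ₗ[K] K) :
    f ∈ eigForms F c r ↔ ∀ J, pr μ J ≠ c → coords b r f J = 0 := by
  constructor
  · intro h J hJ
    have h1 := h (fun l => b (Set.powersetCard.ofFinEmbEquiv.symm J l))
    rw [apply_F b F μ hF] at h1
    rw [coords_apply]
    by_contra h2
    exact hJ (mul_right_cancel₀ h2 h1)
  · intro h
    have h1 : f.compLinearMap F = c • f := by
      apply (coords b r).injective
      funext J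
      rw [coords_apply, map_smul, Pi.smul_apply, coords_apply, smul_eq_mul]
      rw [AlternatingMap.compLinearMap_apply]
      change f (fun l => F (b (Set.powersetCard.ofFinEmbEquiv.symm J l))) = _
      rw [apply_F b F μ hF]
      by_cases hJ : pr μ J = c
      · rw [← hJ]
        rfl
      · have h2 := h J hJ
        rw [coords_apply] at h2
        rw [h2, mul_zero, mul_zero]
    intro v
    have h2 := congrArg (fun g : V [⋀^Fin r]→ₗ[K] K => g v) h1
    exact h2

include hF in
/-- The dimension of the space of the eigenforms. -/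
theorem finrank_eigForms (c : K) (r : ℕ) : finrank K (eigForms F c r) =
    Nat.card {J : Set.powersetCard (Fin d) r // pr μ J = c} := by
  classical
  let T : eigForms F c r →ₗ[K] ({J : Set.powersetCard (Fin d) r // pr μ J = c} → K) :=
    LinearMap.pi fun J => (LinearMap.proj J.1).comp
      ((coords b r).toLinearMap.comp (eigForms F c r).subtype)
  have hT : ∀ f J, T f J = coords b r f.1 J.1 := fun f J => rfl
  have hb : Function.Bijective T := by
    constructor
    · intro f g hfg
      apply Subtype.ext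
      apply (coords b r).injective
      funext J
      by_cases hJ : pr μ J = c
      · exact congrFun hfg ⟨J, hJ⟩
      · rw [(mem_iff b F μ hF c r _).1 f.2 J hJ, (mem_iff b F μ hF c r _).1 g.2 J hJ]
    · intro y
      let x : Set.powersetCard (Fin d) r → K := fun J => if h : pr μ J = c then y ⟨J, h⟩ else 0
      refine ⟨⟨(coords b r).symm x, ?_⟩, ?_⟩
      · rw [mem_iff b F μ hF]
        intro J hJ
        rw [LinearEquiv.apply_symm_apply]
        exact dif_neg hJ
      · funext J
        rw [hT]
        change coords b r ((coords b r).symm x) J.1 = _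
        rw [LinearEquiv.apply_symm_apply]
        exact dif_pos J.2
  rw [LinearEquiv.finrank_eq (LinearEquiv.ofBijective T hb), Module.finrank_fintype_fun_eq_card,
    Nat.card_eq_fintype_card]

end forms

section wedge

variable {K V : Type*} [Field K] [AddCommGroup V] [Module K V]

/-- The rank of the matrix `m`. -/
noncomputable def matRank (K : Type*) [Field K] {ι κ : Type*} (m : ι → κ → K) : ℕ :=
  finrank K (Submodule.span K (Set.range m))

/-- The cup product of two alternating forms (up to a factor). -/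
def wedge {r r' : ℕ} (f : V [⋀^Fin r]→ₗ[K] K) (g : V [⋀^Fin r']→ₗ[K] K)
    (v : Fin r ⊕ Fin r' → V) : K :=
  ∑ σ : Equiv.Perm (Fin r ⊕ Fin r'), ((Equiv.Perm.sign σ : ℤ) : K) *
    (f (fun k => v (σ (Sum.inl k))) * g (fun k => v (σ (Sum.inr k))))

variable {r r' : ℕ} (b : Basis (Fin r ⊕ Fin r') K V)

/-- The form complementary to the first basis vectors. -/
noncomputable def comp : V [⋀^Fin r']→ₗ[K] K where
  toFun w := b.det (Sum.elim (fun k => b (Sum.inl k)) w)
  map_update_add' w k x y := by
    classical
    have h : ∀ z, Sum.elim (fun k => b (Sum.inl k)) (Function.update w k z) =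
        Function.update (Sum.elim (fun k => b (Sum.inl k)) w) (Sum.inr k) z := fun z => by
      rw [Sum.update_elim_inr]
    have h0 : ∀ (D : DecidableEq (Fin r')) z, @Function.update _ _ D w k z =
        Function.update w k z := fun D z => by congr!
    rw [h0, h0, h0, h, h, h, AlternatingMap.map_update_add]
  map_update_smul' w k c x := by
    classical
    have h : ∀ z, Sum.elim (fun k => b (Sum.inl k)) (Function.update w k z) =
        Function.update (Sum.elim (fun k => b (Sum.inl k)) w) (Sum.inr k) z := fun z => by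
      rw [Sum.update_elim_inr]
    have h0 : ∀ (D : DecidableEq (Fin r')) z, @Function.update _ _ D w k z =
        Function.update w k z := fun D z => by congr!
    rw [h0, h0, h, h, AlternatingMap.map_update_smul]
  map_eq_zero_of_eq' w i j hij hne := by
    refine b.det.map_eq_zero_of_eq _ (i := Sum.inr i) (j := Sum.inr j) hij ?_
    intro h
    exact hne (Sum.inr_injective h)

theorem comp_apply (w : Fin r' → V) :
    comp b w = b.det (Sum.elim (fun k => b (Sum.inl k)) w) := rfl

variable (F : V →ₗ[K] V) (μ : Fin r ⊕ Fin r' → K) (hF : ∀ i, F (b i) = μ i • b i)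

include hF in
theorem det_F (v : Fin r ⊕ Fin r' → V) : b.det (fun i => F (v i)) = (∏ i, μ i) * b.det v := by
  have h1 : (b.det).compLinearMap F = (∏ i, μ i) • b.det := by
    apply Basis.ext_alternating b
    intro t _
    rw [AlternatingMap.compLinearMap_apply]
    change b.det (fun i => F (b (t i))) = _
    simp only [hF]
    rw [AlternatingMap.map_smul_univ, AlternatingMap.smul_apply]
    by_cases ht : Function.Injective t
    · have h2 : Function.Bijective t := Finite.injective_iff_bijective.1 ht
      congr 1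
      exact Function.Bijective.prod_comp h2 μ
    · have h3 : b.det (fun i => b (t i)) = 0 := by
        rw [Function.Injective] at ht
        push Not at ht
        obtain ⟨i, j, hij, hne⟩ := ht
        exact b.det.map_eq_zero_of_eq _ (i := i) (j := j) (by simp only [hij]) hne
      rw [h3, smul_zero, smul_zero]
  exact congrArg (fun g : V [⋀^Fin r ⊕ Fin r']→ₗ[K] K => g v) h1

include hF in
theorem comp_mem {c c' : K} (hc : ∏ k, μ (Sum.inl k) = c) (hc0 : c ≠ 0)
    (hcc : c * c' = ∏ i, μ i) : comp b ∈ eigForms F c' r' := by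
  intro w
  rw [comp_apply, comp_apply]
  have h1 := det_F b F μ hF (Sum.elim (fun k => b (Sum.inl k)) w)
  have h2 : (fun i => F (Sum.elim (fun k => b (Sum.inl k)) w i)) =
      fun i => (Sum.elim (fun k => μ (Sum.inl k)) (fun _ => (1 : K)) i) •
        (Sum.elim (fun k => b (Sum.inl k)) (fun k => F (w k)) i) := by
    funext i
    rcases i with i | i
    · exact hF _
    · change F (w i) = (1 : K) • F (w i)
      rw [one_smul]
  rw [h2, AlternatingMap.map_smul_univ, Fintype.prod_sum_type] at h1
  simp only [Sum.elim_inl, Sum.elim_inr, Finset.prod_const_one, mul_one, hc, smul_eq_mul] at h1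
  rw [← hcc, mul_assoc] at h1
  exact mul_left_cancel₀ hc0 h1

theorem wedge_comp [CharZero K] (f : V [⋀^Fin r]→ₗ[K] K)
    (hf : f (fun k => b (Sum.inl k)) ≠ 0) : wedge f (comp b) b ≠ 0 := by
  classical
  have key : ∀ σ : Equiv.Perm (Fin r ⊕ Fin r'), ((Equiv.Perm.sign σ : ℤ) : K) *
      (f (fun k => b (σ (Sum.inl k))) * comp b (fun k => b (σ (Sum.inr k)))) =
      if Set.MapsTo σ (Set.range Sum.inl) (Set.range Sum.inl) then f (fun k => b (Sum.inl k))
        else 0 := by
    intro σ
    split_ifs with h
    · obtain ⟨⟨σ₁, σ₂⟩, rfl⟩ := Equiv.Perm.mem_sumCongrHom_range_of_perm_mapsTo_inl h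
      change ((Equiv.Perm.sign (Equiv.Perm.sumCongr σ₁ σ₂) : ℤ) : K) *
        (f (fun k => b (Sum.inl (σ₁ k))) * comp b (fun k => b (Sum.inr (σ₂ k)))) = _
      have h1 : f (fun k => b (Sum.inl (σ₁ k))) =
          ((Equiv.Perm.sign σ₁ : ℤ) : K) * f (fun k => b (Sum.inl k)) := by
        have := f.map_perm (fun k => b (Sum.inl k)) σ₁
        rw [Units.smul_def, zsmul_eq_mul] at this
        exact this
      have h2 : comp b (fun k => b (Sum.inr (σ₂ k))) = ((Equiv.Perm.sign σ₂ : ℤ) : K) := by
        have h3 := (comp b).map_perm (fun k => b (Sum.inr k)) σ₂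
        rw [Units.smul_def, zsmul_eq_mul] at h3
        have h4 : comp b (fun k => b (Sum.inr k)) = 1 := by
          rw [comp_apply]
          have h5 : (Sum.elim (fun k => b (Sum.inl k)) (fun k => b (Sum.inr k)) :
              Fin r ⊕ Fin r' → V) = b := by
            funext i
            rcases i with i | i <;> rfl
          rw [h5, Basis.det_self]
        rw [h4, mul_one] at h3
        exact h3
      rw [h1, h2, Equiv.Perm.sign_sumCongr]
      have h6 : ∀ u : ℤˣ, ((u : ℤ) : K) * ((u : ℤ) : K) = 1 := by
        intro u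
        rcases Int.units_eq_one_or u with rfl | rfl <;> simp
      push_cast
      have h7 := h6 (Equiv.Perm.sign σ₁)
      have h8 := h6 (Equiv.Perm.sign σ₂)
      linear_combination (((Equiv.Perm.sign σ₂ : ℤ) : K) * ((Equiv.Perm.sign σ₂ : ℤ) : K) *
        f (fun k => b (Sum.inl k))) * h7 + f (fun k => b (Sum.inl k)) * h8
    · have h1 : ∃ k k', σ (Sum.inr k) = Sum.inl k' := by
        by_contra hno
        push Not at hno
        apply h
        rw [Equiv.Perm.perm_mapsTo_inl_iff_mapsTo_inr]
        rintro _ ⟨k, rfl⟩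
        rcases hx : σ (Sum.inr k) with y | y
        · exact absurd hx (hno k y)
        · exact ⟨y, rfl⟩
      obtain ⟨k, k', hk⟩ := h1
      have h2 : comp b (fun k => b (σ (Sum.inr k))) = 0 := by
        rw [comp_apply]
        refine b.det.map_eq_zero_of_eq _ (i := Sum.inl k') (j := Sum.inr k) ?_ (by simp)
        change b (Sum.inl k') = b (σ (Sum.inr k))
        rw [hk]
      rw [h2, mul_zero, mul_zero]
  unfold wedge
  rw [Finset.sum_congr rfl fun σ _ => key σ, ← Finset.sum_filter, Finset.sum_const, nsmul_eq_mul]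
  refine mul_ne_zero ?_ hf
  rw [Nat.cast_ne_zero, Finset.card_ne_zero]
  exact ⟨1, Finset.mem_filter.2 ⟨Finset.mem_univ _, fun x hx => hx⟩⟩

/-- Eigenforms for complementary eigenvalues are in duality. -/
theorem wedge_nondeg [CharZero K] {d : ℕ} (e : Basis (Fin d) K V) (F : V →ₗ[K] V) (μ : Fin d → K)
    (hF : ∀ i, F (e i) = μ i • e i) {r r' : ℕ} (hr : r + r' = d) {c c' : K}
    (hcc : c * c' = ∏ i, μ i) (hc0 : c ≠ 0) (f : V [⋀^Fin r]→ₗ[K] K) (hf : f ∈ eigForms F c r)
    (hf0 : f ≠ 0) : ∃ g ∈ eigForms F c' r', ∃ v, wedge f g v ≠ 0 := by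
  classical
  -- a set of basis vectors on which `f` does not vanish
  have h1 : ∃ t : Fin r → Fin d, Function.Injective t ∧ f (fun l => e (t l)) ≠ 0 := by
    by_contra hno
    push Not at hno
    apply hf0
    apply Basis.ext_alternating e
    intro t ht
    rw [hno t ht]
    rfl
  obtain ⟨t, ht, hft⟩ := h1
  -- the complement
  have h2 : Fintype.card {x // x ∉ Set.range t} = r' := by
    have h3 := Fintype.card_subtype_compl (fun x => x ∈ Set.range t)
    rw [Fintype.card_fin] at h3
    have h4 : Fintype.card {x // x ∈ Set.range t} = r := by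
      have := Fintype.card_congr (Equiv.ofInjective t ht)
      rw [Fintype.card_fin] at this
      exact this.symm
    omega
  let E : Fin r ⊕ Fin r' ≃ Fin d :=
    (Equiv.sumCongr (Equiv.ofInjective t ht) (Fintype.equivFinOfCardEq h2).symm).trans
      (Equiv.Set.sumCompl (Set.range t))
  have hE : ∀ k, E (Sum.inl k) = t k := fun k => rfl
  let b := e.reindex E.symm
  have hb : ∀ i, b i = e (E i) := fun i => by
    rw [Basis.reindex_apply, Equiv.symm_symm]
  have hbF : ∀ i, F (b i) = μ (E i) • b i := fun i => by rw [hb, hF]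
  have hfb : f (fun k => b (Sum.inl k)) ≠ 0 := by
    have h3 : (fun k => b (Sum.inl k)) = fun l => e (t l) := by
      funext k
      rw [hb, hE]
    rw [h3]
    exact hft
  have hc : ∏ k, μ (E (Sum.inl k)) = c := by
    have h3 := hf (fun l => e (t l))
    rw [apply_F e F μ hF] at h3
    have h4 := mul_right_cancel₀ hft h3
    simpa only [hE] using h4
  have hprod : c * c' = ∏ i, μ (E i) := by
    rw [hcc]
    exact (Equiv.prod_comp E μ).symm
  exact ⟨comp b, comp_mem b F (fun i => μ (E i)) hbF hc hc0 hprod, b, wedge_comp b f hfb⟩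

end wedge

section zeta

variable {V : Type*} [AddCommGroup V] [Module ℂ V]

/-- The eigenbasis of the exterior powers. -/
theorem map_basis {d : ℕ} (b : Basis (Fin d) ℂ V) (F : V →ₗ[ℂ] V) (μ : Fin d → ℂ)
    (hF : ∀ i, F (b i) = μ i • b i) (j : ℕ) (J : Set.powersetCard (Fin d) j) :
    exteriorPower.map j F (b.exteriorPower j J) = pr μ J • b.exteriorPower j J := by
  rw [exteriorPower.basis_apply, exteriorPower.map_apply_ιMulti_family]
  unfold exteriorPower.ιMulti_family
  have h1 : (F ∘ b) ∘ (Set.powersetCard.ofFinEmbEquiv.symm J) =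
      fun l => μ (Set.powersetCard.ofFinEmbEquiv.symm J l) •
        (b ∘ (Set.powersetCard.ofFinEmbEquiv.symm J)) l := by
    funext l
    simp only [Function.comp_apply, hF]
  rw [h1]
  exact (exteriorPower.ιMulti ℂ j).toMultilinearMap.map_smul_univ _ _

/-- **The order of the zeta function** is minus the number of the sets of `2 n` eigenvalues with
product `q ^ n`. -/
theorem order_zeta [FiniteDimensional ℂ V] (q : ℝ) (hq : 1 < q) {d : ℕ} (b : Basis (Fin d) ℂ V)
    (F : V →ₗ[ℂ] V) (μ : Fin d → ℂ) (hF : ∀ i, F (b i) = μ i • b i)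
    (hμ : ∀ i, ‖μ i‖ ^ 2 = q) (n : ℕ) :
    meromorphicOrderAt (zeta q F) (n : ℂ) =
      ((- (Nat.card {J : Set.powersetCard (Fin d) (2 * n) // pr μ J = (q : ℂ) ^ n} : ℤ) : ℤ) :
        WithTop ℤ) := by
  classical
  have hcard : ∀ j, finrank ℂ (Module.End.eigenspace (exteriorPower.map j F) ((q : ℂ) ^ n)) =
      Nat.card {J : Set.powersetCard (Fin d) j // pr μ J = (q : ℂ) ^ n} := fun j =>
    finrank_eigenspace (b.exteriorPower j) _ (pr μ) (map_basis b F μ hF j) _
  have hzero : ∀ j, j ≠ 2 * n →
      finrank ℂ (Module.End.eigenspace (exteriorPower.map j F) ((q : ℂ) ^ n)) = 0 := by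
    intro j hj
    rw [hcard, Nat.card_eq_zero]
    left
    refine ⟨fun ⟨J, hJ⟩ => hj ?_⟩
    have h1 : (‖pr μ J‖ ^ 2 : ℝ) = q ^ j := by
      unfold pr
      rw [norm_prod, ← Finset.prod_pow, Finset.prod_congr rfl (fun l _ => hμ _),
        Finset.prod_const, Finset.card_univ, Fintype.card_fin]
    rw [hJ, norm_pow, Complex.norm_real, Real.norm_of_nonneg (by linarith), ← pow_mul] at h1
    have h2 : n * 2 = j := pow_right_injective₀ (by linarith : 0 < q) hq.ne' h1
    omega
  have hdet : ∀ j : ℕ, MeromorphicAt (fun s : ℂ =>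
      (LinearMap.det (1 - (q : ℂ) ^ (-s) • exteriorPower.map j F)) ^ ((-1 : ℤ) ^ (j + 1))) (n : ℂ) ∧
      meromorphicOrderAt (fun s : ℂ =>
      (LinearMap.det (1 - (q : ℂ) ^ (-s) • exteriorPower.map j F)) ^ ((-1 : ℤ) ^ (j + 1))) (n : ℂ) =
      (((-1 : ℤ) ^ (j + 1) * finrank ℂ
        (Module.End.eigenspace (exteriorPower.map j F) ((q : ℂ) ^ n)) : ℤ) : WithTop ℤ) := by
    intro j
    obtain ⟨h1, h2⟩ := order_det q hq n (b.exteriorPower j) _ (pr μ) (map_basis b F μ hF j)
    refine ⟨h1.fun_zpow _, ?_⟩
    rw [fun_meromorphicOrderAt_zpow h1, h2]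
    rfl
  unfold zeta
  change meromorphicOrderAt (fun s : ℂ => ∏ j ∈ Finset.range (finrank ℂ V + 1),
    (LinearMap.det (1 - (q : ℂ) ^ (-s) • exteriorPower.map j F)) ^ ((-1 : ℤ) ^ (j + 1)))
      (n : ℂ) = _
  rw [meromorphicOrderAt_fun_prod (fun j _ => (hdet j).1),
    Finset.sum_congr rfl (fun j _ => (hdet j).2), ← WithTop.coe_sum]
  congr 1
  rw [← hcard]
  by_cases hn : 2 * n ∈ Finset.range (finrank ℂ V + 1)
  · rw [Finset.sum_eq_single_of_mem (2 * n) hn]
    · rw [pow_succ, pow_mul]
      simp
    · intro j _ hj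
      rw [hzero j hj]
      simp
  · have h1 : finrank ℂ (Module.End.eigenspace (exteriorPower.map (2 * n) F) ((q : ℂ) ^ n)) = 0 := by
      have h2 : finrank ℂ (⋀[ℂ]^(2 * n) V) = 0 := by
        rw [exteriorPower.finrank_eq, Nat.choose_eq_zero_of_lt]
        rw [Finset.mem_range] at hn
        omega
      have h3 := Submodule.finrank_le
        (Module.End.eigenspace (exteriorPower.map (2 * n) F) ((q : ℂ) ^ n))
      omega
    rw [h1, Finset.sum_eq_zero]
    · simp
    · intro j hj
      have hj2 : j ≠ 2 * n := fun h => hn (h ▸ hj)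
      rw [hzero j hj2]
      simp

end zeta

end Pool.Agent.L7lead.PoleForms
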