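import Mathlib

/-!
# Monotonicity of the normalized number of proper colourings

`cnt A x` is the number of maps `f : V → Fin x` with `f u ≠ f w` whenever `A u w`. Let `K` be a clique of
`A`, let `V` have `N` elements and `x + 1 ≥ N`. We show that `cnt A x / cnt (complete K) x` is at most
the same quotient for `x + 1` colours.

Proof: remove the constraints at a vertex `v` outside of `K`. With `m` neighbours `N(v)`,
`x cnt A x = (x - m) cnt A' x + ∑ coll f`, where `coll f` is `m` minus the number of colours of `f` on `N(v)`, and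
`x ∑ coll f` is a sum of numbers of proper colourings for relations obtained by merging two neighbours of `v`;
these have fewer constrained vertices. It remains to see that the expected number of collisions is less than
`m / 2`; it is at most half of the sum over the `y` in `N(v)` of the expected number of the other elements of
`N(v)` with the same colour, and by resampling the colour of `y` each of these is at most `1 - 2 / (x + 1)`.
-/

set_option autoImplicit false

namespace Pool.Agent.L7lead.Shameful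

open Finset Function
open scoped Classical

noncomputable section

section one

variable {V : Type} [Fintype V] [DecidableEq V]

/-- `f` is proper for the relation `A`. -/
def Good (A : V → V → Prop) {x : ℕ} (f : V → Fin x) : Prop := ∀ u w, A u w → f u ≠ f w

/-- Indicator. -/
def ind (p : Prop) : ℝ := if p then 1 else 0

theorem ind_true {p : Prop} (h : p) : ind p = 1 := if_pos h
theorem ind_false {p : Prop} (h : ¬ p) : ind p = 0 := if_neg h
theorem ind_nonneg (p : Prop) : 0 ≤ ind p := by unfold ind; split_ifs <;> norm_num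
theorem ind_le_one (p : Prop) : ind p ≤ 1 := by unfold ind; split_ifs <;> norm_num
theorem ind_mono {p q : Prop} (h : p → q) : ind p ≤ ind q := by
  by_cases hp : p
  · rw [ind_true hp, ind_true (h hp)]
  · rw [ind_false hp]; exact ind_nonneg q
theorem ind_congr {p q : Prop} (h : p ↔ q) : ind p = ind q := by rw [propext h]
theorem ind_and (p q : Prop) : ind (p ∧ q) = ind p * ind q := by
  by_cases hp : p
  · rw [ind_true hp, one_mul]; exact ind_congr (by simp [hp])
  · rw [ind_false hp, zero_mul]; exact ind_false (fun h => hp h.1)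
theorem ind_add_not (p : Prop) : ind p + ind (¬ p) = 1 := by
  by_cases hp : p
  · rw [ind_true hp, ind_false (not_not.2 hp), add_zero]
  · rw [ind_false hp, ind_true hp, zero_add]

theorem sum_ind_eq_card {α : Type*} (s : Finset α) (p : α → Prop) [DecidablePred p] :
    ∑ a ∈ s, ind (p a) = ((s.filter p).card : ℝ) := by
  rw [Finset.card_filter]
  push_cast
  refine Finset.sum_congr rfl fun a _ => ?_
  by_cases h : p a
  · rw [ind_true h, if_pos h]
  · rw [ind_false h, if_neg h]

/-- The number of proper maps. -/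
def cnt (A : V → V → Prop) (x : ℕ) : ℝ := ∑ f : V → Fin x, ind (Good A f)

theorem cnt_nonneg (A : V → V → Prop) (x : ℕ) : 0 ≤ cnt A x :=
  Finset.sum_nonneg fun _ _ => ind_nonneg _

theorem sum_update {x : ℕ} (y : V) (φ : (V → Fin x) → ℝ) :
    (x : ℝ) * ∑ f, φ f = ∑ f : V → Fin x, ∑ c : Fin x, φ (update f y c) := by
  have h : ∑ p : (V → Fin x) × Fin x, φ (update p.1 y p.2) =
      ∑ p : (V → Fin x) × Fin x, φ p.1 := by
    let e : (V → Fin x) × Fin x → (V → Fin x) × Fin x := fun p => (update p.1 y p.2, p.1 y)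
    have he : Function.Involutive e := by
      rintro ⟨f, c⟩
      simp [e]
    exact Fintype.sum_bijective e he.bijective _ _ (fun p => rfl)
  rw [Fintype.sum_prod_type, Fintype.sum_prod_type] at h
  rw [h, Finset.mul_sum]
  refine Finset.sum_congr rfl fun f _ => ?_
  simp

/-- Remove the constraints at `v`. -/
def del (A : V → V → Prop) (v : V) : V → V → Prop := fun u w => u ≠ v ∧ w ≠ v ∧ A u w

/-- The neighbours of `v`. -/
def nbr (A : V → V → Prop) (v : V) : Finset V := univ.filter fun u => u ≠ v ∧ (A u v ∨ A v u)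

theorem mem_nbr {A : V → V → Prop} {v z : V} : z ∈ nbr A v ↔ z ≠ v ∧ (A z v ∨ A v z) := by
  simp [nbr]

theorem good_update {A : V → V → Prop} {v : V} (hv : ¬ A v v) {x : ℕ} (f : V → Fin x) (c : Fin x) :
    Good A (update f v c) ↔ Good (del A v) f ∧ c ∉ (nbr A v).image f := by
  constructor
  · intro h
    refine ⟨fun u w ⟨hu, hw, huw⟩ => ?_, fun hc => ?_⟩
    · have := h u w huw
      rwa [update_of_ne hu, update_of_ne hw] at this
    · obtain ⟨u, hu, hfu⟩ := Finset.mem_image.1 hc
      simp only [nbr, mem_filter, mem_univ, true_and] at hu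
      obtain ⟨huv, h1 | h1⟩ := hu
      · have := h u v h1
        rw [update_of_ne huv, update_self] at this
        exact this hfu
      · have := h v u h1
        rw [update_of_ne huv, update_self] at this
        exact this hfu.symm
  · rintro ⟨h1, h2⟩ u w huw
    by_cases hu : u = v
    · by_cases hw : w = v
      · subst hu; subst hw; exact absurd huw hv
      · subst hu
        rw [update_self, update_of_ne hw]
        intro hc
        apply h2
        rw [Finset.mem_image]
        exact ⟨w, by simp [nbr, hw, huw], hc.symm⟩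
    · by_cases hw : w = v
      · subst hw
        rw [update_self, update_of_ne hu]
        intro hc
        apply h2
        rw [Finset.mem_image]
        exact ⟨u, by simp [nbr, hu, huw], hc⟩
      · rw [update_of_ne hu, update_of_ne hw]
        exact h1 u w ⟨hu, hw, huw⟩

theorem sum_not_mem {x : ℕ} (I : Finset (Fin x)) : ∑ c : Fin x, ind (c ∉ I) = x - I.card := by
  have h : ∑ c : Fin x, (ind (c ∈ I) + ind (c ∉ I)) = x := by
    rw [Finset.sum_congr rfl (fun c _ => ind_add_not (c ∈ I))]; simp
  have h3 : ∑ c : Fin x, ind (c ∈ I) = (I.card : ℝ) := by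
    rw [sum_ind_eq_card, Finset.filter_univ_mem]
  rw [Finset.sum_add_distrib, h3] at h
  linarith

/-- Removing the constraints at `v`. -/
theorem step1 (A : V → V → Prop) {v : V} (hv : ¬ A v v) (x : ℕ) :
    (x : ℝ) * cnt A x =
      ∑ f : V → Fin x, ind (Good (del A v) f) * (x - ((nbr A v).image f).card) := by
  unfold cnt
  rw [sum_update v]
  refine Finset.sum_congr rfl fun f _ => ?_
  rw [← sum_not_mem, Finset.mul_sum]
  refine Finset.sum_congr rfl fun c _ => ?_
  rw [← ind_and]
  exact ind_congr (good_update hv f c)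

/-- Merge `a` into `b`; `Z` is a set of further neighbours of `b`. -/
def mrg (A : V → V → Prop) (a b : V) (Z : Finset V) : V → V → Prop := fun u w =>
  (u ≠ a ∧ w ≠ a ∧ A u w) ∨ (u = b ∧ w ≠ a ∧ (A a w ∨ A w a)) ∨ (u = b ∧ w ∈ Z)

theorem merge {A : V → V → Prop} {a b : V} {Z : Finset V} (hA : ¬ A a a) (hab : a ≠ b)
    (haZ : a ∉ Z) (x : ℕ) :
    (x : ℝ) * ∑ f : V → Fin x, ind (Good A f ∧ f a = f b ∧ ∀ z ∈ Z, f z ≠ f b) =
      cnt (mrg A a b Z) x := by
  unfold cnt
  rw [sum_update a]
  refine Finset.sum_congr rfl fun f _ => ?_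
  have h1 : ∀ c : Fin x, ind (Good A (update f a c) ∧ update f a c a = update f a c b ∧
      ∀ z ∈ Z, update f a c z ≠ update f a c b) =
      if c = f b then ind (Good A (update f a (f b)) ∧ ∀ z ∈ Z, f z ≠ f b) else 0 := by
    intro c
    have hZ : (∀ z ∈ Z, update f a c z ≠ update f a c b) ↔ ∀ z ∈ Z, f z ≠ f b := by
      refine forall₂_congr fun z hz => ?_
      rw [update_of_ne (by rintro rfl; exact haZ hz), update_of_ne hab.symm]
    rw [hZ, update_self, update_of_ne hab.symm]
    split_ifs with hc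
    · subst hc
      exact ind_congr (by simp)
    · exact ind_false (fun h => hc h.2.1)
  rw [Finset.sum_congr rfl (fun c _ => h1 c), Finset.sum_ite_eq' univ (f b)]
  simp only [mem_univ, if_true]
  refine ind_congr ?_
  rw [good_update hA]
  constructor
  · rintro ⟨⟨h1, h2⟩, h3⟩ u w huw
    rcases huw with ⟨hu, hw, huw⟩ | ⟨rfl, hw, huw⟩ | ⟨rfl, hw⟩
    · exact h1 u w ⟨hu, hw, huw⟩
    · intro h
      apply h2
      rw [Finset.mem_image]
      refine ⟨w, ?_, h.symm⟩
      simp only [nbr, mem_filter, mem_univ, true_and]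
      exact ⟨hw, huw.symm⟩
    · exact (h3 w hw).symm
  · intro h
    refine ⟨⟨fun u w ⟨hu, hw, huw⟩ => h u w (Or.inl ⟨hu, hw, huw⟩), ?_⟩, ?_⟩
    · intro hc
      obtain ⟨w, hw, hfw⟩ := Finset.mem_image.1 hc
      simp only [nbr, mem_filter, mem_univ, true_and] at hw
      exact h b w (Or.inr (Or.inl ⟨rfl, hw.1, hw.2.symm⟩)) hfw.symm
    · intro z hz
      exact (h b z (Or.inr (Or.inr ⟨rfl, hz⟩))).symm

end one

/-! ### Collisions -/

section two

variable {V : Type} [Fintype V] [LinearOrder V]

theorem sum_first {x : ℕ} (N : Finset V) (f : V → Fin x) (y : V) :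
    ∑ z ∈ N.filter (fun z => y < z), ind (f y = f z ∧ ∀ z' ∈ N, y < z' → z' < z → f z' ≠ f z) =
      ind (¬ ∀ z ∈ N, y < z → f y ≠ f z) := by
  by_cases h : ∀ z ∈ N, y < z → f y ≠ f z
  · rw [ind_false (not_not.2 h)]
    refine Finset.sum_eq_zero fun z hz => ind_false fun h2 => ?_
    rw [mem_filter] at hz
    exact h z hz.1 hz.2 h2.1
  · rw [ind_true h]
    push Not at h
    obtain ⟨z₁, hz₁, hyz₁, hf₁⟩ := h
    set M := N.filter (fun z => y < z ∧ f y = f z) with hM
    have hne : M.Nonempty := ⟨z₁, by simp [hM, hz₁, hyz₁, hf₁]⟩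
    set z₀ := M.min' hne with hz₀
    have hz₀M : z₀ ∈ M := Finset.min'_mem _ _
    rw [hM, mem_filter] at hz₀M
    rw [Finset.sum_eq_single z₀]
    · refine ind_true ⟨hz₀M.2.2, fun z' hz' hyz' hz'z h2 => ?_⟩
      have : z' ∈ M := by
        rw [hM, mem_filter]
        exact ⟨hz', hyz', hz₀M.2.2.trans h2.symm⟩
      exact absurd (Finset.min'_le _ _ this) (not_le.2 hz'z)
    · intro z hz hne'
      refine ind_false fun h2 => ?_
      rw [mem_filter] at hz
      have hzM : z ∈ M := by
        rw [hM, mem_filter]; exact ⟨hz.1, hz.2, h2.1⟩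
      have hle : z₀ ≤ z := Finset.min'_le _ _ hzM
      have hlt : z₀ < z := lt_of_le_of_ne hle (Ne.symm hne')
      exact h2.2 z₀ hz₀M.1 hz₀M.2.1 hlt (hz₀M.2.2.symm.trans h2.1)
    · intro h2
      exact absurd (by rw [mem_filter]; exact ⟨hz₀M.1, hz₀M.2.1⟩) h2

theorem card_image_eq {x : ℕ} (N : Finset V) (f : V → Fin x) :
    ((N.image f).card : ℝ) = ∑ y ∈ N, ind (∀ z ∈ N, y < z → f y ≠ f z) := by
  rw [sum_ind_eq_card]
  congr 1
  have h1 : N.image f = (N.filter fun y => ∀ z ∈ N, y < z → f y ≠ f z).image f := by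
    ext c
    simp only [mem_image, mem_filter]
    constructor
    · rintro ⟨y, hy, rfl⟩
      set M := N.filter (fun z => f z = f y) with hM
      have hne : M.Nonempty := ⟨y, by simp [hM, hy]⟩
      have hmem : M.max' hne ∈ N ∧ f (M.max' hne) = f y :=
        Finset.mem_filter.1 (show M.max' hne ∈ N.filter (fun z => f z = f y) from
          Finset.max'_mem _ hne)
      refine ⟨M.max' hne, ⟨hmem.1, fun z hz hlt h2 => ?_⟩, hmem.2⟩
      have : z ∈ M := by rw [hM, mem_filter]; exact ⟨hz, h2.symm.trans hmem.2⟩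
      exact absurd (Finset.le_max' _ _ this) (not_le.2 hlt)
    · rintro ⟨y, hy, rfl⟩
      exact ⟨y, hy.1, rfl⟩
  have hinj : Set.InjOn f (N.filter fun y => ∀ z ∈ N, y < z → f y ≠ f z : Finset V) := by
    intro y hy z hz hyz
    rw [Finset.mem_coe, mem_filter] at hy hz
    rcases lt_trichotomy y z with h | h | h
    · exact absurd hyz (hy.2 z hz.1 h)
    · exact h
    · exact absurd hyz.symm (hz.2 y hy.1 h)
  rw [h1, Finset.card_image_of_injOn hinj]

/-- The number of collisions. -/
theorem card_sub_image {x : ℕ} (N : Finset V) (f : V → Fin x) :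
    (N.card : ℝ) - (N.image f).card =
      ∑ y ∈ N, ∑ z ∈ N.filter (fun z => y < z),
        ind (f y = f z ∧ ∀ z' ∈ N, y < z' → z' < z → f z' ≠ f z) := by
  rw [card_image_eq]
  have h : (N.card : ℝ) = ∑ y ∈ N, (ind (∀ z ∈ N, y < z → f y ≠ f z) +
      ind (¬ ∀ z ∈ N, y < z → f y ≠ f z)) := by
    rw [Finset.sum_congr rfl (fun y _ => ind_add_not _)]; simp
  rw [h, Finset.sum_add_distrib, add_sub_cancel_left]
  exact Finset.sum_congr rfl fun y _ => (sum_first N f y).symm

/-- Resampling the colour of `y`. -/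
theorem resample {A : V → V → Prop} {v y : V} (hA : ∀ u, ¬ A u u) (hy : y ≠ v) (N : Finset V)
    (hvN : v ∉ N) {x : ℕ} (hx : Fintype.card V ≤ x) :
    (x : ℝ) * ∑ f : V → Fin x, ind (Good (del A v) f) *
        ∑ z ∈ N.filter (fun z => z ≠ y), ind (f y = f z) ≤ (x - 2) * cnt (del A v) x := by
  have hxV : ({v, y} : Finset V).card ≤ Fintype.card V := Finset.card_le_univ _
  rw [Finset.card_pair hy.symm] at hxV
  have hx2 : (2 : ℝ) ≤ x := by exact_mod_cast hxV.trans hx
  have hx0 : (0 : ℝ) < x := by linarith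
  have hA' : ∀ u, ¬ (del A v) u u := fun u h => hA u h.2.2
  refine le_of_mul_le_mul_left ?_ hx0
  unfold cnt
  have hre : ∀ t : ℝ, (x : ℝ) * ((x - 2) * t) = (x - 2) * (x * t) := fun t => by ring
  rw [hre, sum_update y (fun f => ind (Good (del A v) f) *
    ∑ z ∈ N.filter (fun z => z ≠ y), ind (f y = f z)),
    sum_update y (fun f => ind (Good (del A v) f)), Finset.mul_sum, Finset.mul_sum]
  refine Finset.sum_le_sum fun f _ => ?_
  rw [Finset.mul_sum, Finset.mul_sum]
  set I := (nbr (del A v) y).image f with hI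
  set δ := (nbr (del A v) y).card with hδ
  have hIδ : I.card ≤ δ := Finset.card_image_le
  have hL : ∀ c : Fin x, (x : ℝ) * (ind (Good (del A v) (update f y c)) *
      ∑ z ∈ N.filter (fun z => z ≠ y), ind (update f y c y = update f y c z)) =
      x * (ind (Good (del (del A v) y) f) * ∑ z ∈ N.filter (fun z => z ≠ y),
        (ind (c ∉ I) * ind (c = f z))) := by
    intro c
    rw [ind_congr (good_update (hA' y) f c), ind_and, ← Finset.mul_sum, mul_assoc]
    congr 3
    refine Finset.sum_congr rfl fun z hz => ?_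
    rw [mem_filter] at hz
    rw [update_self, update_of_ne hz.2]
  have hR : ∀ c : Fin x, ((x : ℝ) - 2) * ind (Good (del A v) (update f y c)) =
      (x - 2) * (ind (Good (del (del A v) y) f) * ind (c ∉ I)) := by
    intro c
    rw [ind_congr (good_update (hA' y) f c), ind_and]
  rw [Finset.sum_congr rfl (fun c _ => hL c), Finset.sum_congr rfl (fun c _ => hR c),
    ← Finset.mul_sum, ← Finset.mul_sum, ← Finset.mul_sum, ← Finset.mul_sum, sum_not_mem,
    Finset.sum_comm]
  have hS : ∑ z ∈ N.filter (fun z => z ≠ y), ∑ c : Fin x, (ind (c ∉ I) * ind (c = f z)) ≤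
      (Fintype.card V : ℝ) - 2 - δ := by
    have h1 : ∀ z ∈ N.filter (fun z => z ≠ y), ∑ c : Fin x, (ind (c ∉ I) * ind (c = f z)) =
        ind (f z ∉ I) := by
      intro z _
      rw [Finset.sum_eq_single (f z)]
      · rw [ind_true (rfl : f z = f z), mul_one]
      · intro c _ hc
        rw [ind_false hc, mul_zero]
      · intro h; exact absurd (mem_univ _) h
    rw [Finset.sum_congr rfl h1, sum_ind_eq_card]
    have h2 : ((N.filter (fun z => z ≠ y)).filter (fun z => f z ∉ I)) ⊆
        ((univ.erase v).erase y) \ nbr (del A v) y := by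
      intro z hz
      simp only [mem_filter] at hz
      simp only [mem_sdiff, mem_erase, mem_univ, and_true]
      refine ⟨⟨hz.1.2, fun h => hvN (h ▸ hz.1.1)⟩, fun h => hz.2 ?_⟩
      exact Finset.mem_image_of_mem f h
    have h3 := Finset.card_le_card h2
    have h4 : nbr (del A v) y ⊆ (univ.erase v).erase y := by
      intro z hz
      rw [mem_nbr] at hz
      simp only [mem_erase, mem_univ, and_true]
      refine ⟨hz.1, ?_⟩
      rcases hz.2 with h | h
      · exact h.1
      · exact h.2.1
    have h5 := Finset.card_sdiff_add_card_eq_card h4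
    have h6 : ((univ.erase v).erase y).card + 2 = Fintype.card V := by
      have e1 : ((univ : Finset V).erase v).card + 1 = Fintype.card V := by
        rw [Finset.card_erase_add_one (mem_univ v)]; rfl
      have e2 : (((univ : Finset V).erase v).erase y).card + 1 = ((univ : Finset V).erase v).card :=
        Finset.card_erase_add_one (by simp [hy])
      omega
    have h7 : ((N.filter (fun z => z ≠ y)).filter (fun z => f z ∉ I)).card + δ + 2 ≤
        Fintype.card V := by omega
    have h8 : ((((N.filter (fun z => z ≠ y)).filter (fun z => f z ∉ I)).card : ℕ) : ℝ) + δ + 2 ≤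
        Fintype.card V := by exact_mod_cast h7
    linarith
  have hN : (Fintype.card V : ℝ) ≤ x := by exact_mod_cast hx
  have hI' : (I.card : ℝ) ≤ δ := by exact_mod_cast hIδ
  have hδ0 : (0 : ℝ) ≤ δ := Nat.cast_nonneg _
  have hkey : (x : ℝ) * ∑ z ∈ N.filter (fun z => z ≠ y), ∑ c : Fin x,
      (ind (c ∉ I) * ind (c = f z)) ≤ (x - 2) * (x - I.card) := by
    calc (x : ℝ) * ∑ z ∈ N.filter (fun z => z ≠ y), ∑ c : Fin x, (ind (c ∉ I) * ind (c = f z))
        ≤ x * (x - 2 - δ) := by
          refine mul_le_mul_of_nonneg_left ?_ hx0.le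
          linarith
      _ ≤ (x - 2) * (x - δ) := by nlinarith
      _ ≤ (x - 2) * (x - I.card) := by
          refine mul_le_mul_of_nonneg_left ?_ (by linarith)
          linarith
  have hg := ind_nonneg (Good (del (del A v) y) f)
  calc (x : ℝ) * (ind (Good (del (del A v) y) f) * ∑ z ∈ N.filter (fun z => z ≠ y),
        ∑ c : Fin x, (ind (c ∉ I) * ind (c = f z)))
      = ind (Good (del (del A v) y) f) * (x * ∑ z ∈ N.filter (fun z => z ≠ y),
        ∑ c : Fin x, (ind (c ∉ I) * ind (c = f z))) := by ring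
    _ ≤ ind (Good (del (del A v) y) f) * ((x - 2) * (x - I.card)) :=
        mul_le_mul_of_nonneg_left hkey hg
    _ = (x - 2) * (ind (Good (del (del A v) y) f) * (x - I.card)) := by ring

/-- The total number of collisions is small. -/
theorem sum_coll_le {A : V → V → Prop} {v : V} (hA : ∀ u, ¬ A u u) {x : ℕ}
    (hx : Fintype.card V ≤ x) :
    2 * (x : ℝ) * ∑ f : V → Fin x, ind (Good (del A v) f) *
        (((nbr A v).card : ℝ) - ((nbr A v).image f).card) ≤
      (nbr A v).card * ((x - 2) * cnt (del A v) x) := by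
  set N := nbr A v with hN
  have hvN : v ∉ N := fun h => (mem_nbr.1 h).1 rfl
  have h1 : ∀ f : V → Fin x, 2 * ((N.card : ℝ) - (N.image f).card) ≤
      ∑ y ∈ N, ∑ z ∈ N.filter (fun z => z ≠ y), ind (f y = f z) := by
    intro f
    rw [card_sub_image]
    have e1 : ∑ y ∈ N, ∑ z ∈ N.filter (fun z => y < z),
        ind (f y = f z ∧ ∀ z' ∈ N, y < z' → z' < z → f z' ≠ f z) ≤
        ∑ y ∈ N, ∑ z ∈ N.filter (fun z => y < z), ind (f y = f z) :=
      Finset.sum_le_sum fun y _ => Finset.sum_le_sum fun z _ => ind_mono fun h => h.1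
    have e2 : ∑ y ∈ N, ∑ z ∈ N.filter (fun z => y < z), ind (f y = f z) =
        ∑ y ∈ N, ∑ z ∈ N.filter (fun z => z < y), ind (f y = f z) := by
      simp only [Finset.sum_filter]
      rw [Finset.sum_comm]
      refine Finset.sum_congr rfl fun y _ => Finset.sum_congr rfl fun z _ => ?_
      split_ifs
      · exact ind_congr eq_comm
      · rfl
    have e3 : ∑ y ∈ N, ∑ z ∈ N.filter (fun z => z ≠ y), ind (f y = f z) =
        ∑ y ∈ N, ∑ z ∈ N.filter (fun z => y < z), ind (f y = f z) +
        ∑ y ∈ N, ∑ z ∈ N.filter (fun z => z < y), ind (f y = f z) := by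
      rw [← Finset.sum_add_distrib]
      refine Finset.sum_congr rfl fun y _ => ?_
      rw [← Finset.sum_union]
      · refine Finset.sum_congr ?_ fun _ _ => rfl
        ext z
        simp only [mem_filter, mem_union]
        constructor
        · rintro ⟨hz, h⟩
          rcases lt_or_gt_of_ne h with h | h
          · exact Or.inr ⟨hz, h⟩
          · exact Or.inl ⟨hz, h⟩
        · rintro (⟨hz, h⟩ | ⟨hz, h⟩)
          · exact ⟨hz, h.ne'⟩
          · exact ⟨hz, h.ne⟩
      · rw [Finset.disjoint_left]
        intro z hz hz'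
        simp only [mem_filter] at hz hz'
        exact absurd hz.2 (not_lt.2 hz'.2.le)
    linarith
  calc 2 * (x : ℝ) * ∑ f : V → Fin x, ind (Good (del A v) f) * ((N.card : ℝ) - (N.image f).card)
      = x * ∑ f : V → Fin x, ind (Good (del A v) f) *
          (2 * ((N.card : ℝ) - (N.image f).card)) := by
        rw [mul_comm (2 : ℝ), mul_assoc, Finset.mul_sum (a := (2 : ℝ))]
        congr 1
        exact Finset.sum_congr rfl fun f _ => by ring
    _ ≤ x * ∑ f : V → Fin x, ind (Good (del A v) f) *
          ∑ y ∈ N, ∑ z ∈ N.filter (fun z => z ≠ y), ind (f y = f z) := by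
        refine mul_le_mul_of_nonneg_left (Finset.sum_le_sum fun f _ => ?_) (Nat.cast_nonneg _)
        exact mul_le_mul_of_nonneg_left (h1 f) (ind_nonneg _)
    _ = ∑ y ∈ N, x * ∑ f : V → Fin x, ind (Good (del A v) f) *
          ∑ z ∈ N.filter (fun z => z ≠ y), ind (f y = f z) := by
        rw [← Finset.mul_sum]
        congr 1
        rw [Finset.sum_comm]
        exact Finset.sum_congr rfl fun f _ => by rw [Finset.mul_sum]
    _ ≤ ∑ y ∈ N, (x - 2) * cnt (del A v) x :=
        Finset.sum_le_sum fun y hy => resample hA (mem_nbr.1 hy).1 N hvN hx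
    _ = N.card * ((x - 2) * cnt (del A v) x) := by
        rw [Finset.sum_const, nsmul_eq_mul]

/-- The relation of the clique `K`. -/
def cli (K : Finset V) : V → V → Prop := fun u w => u ∈ K ∧ w ∈ K ∧ u ≠ w

theorem cnt_eq_zero {A : V → V → Prop} {u : V} (h : A u u) (x : ℕ) : cnt A x = 0 :=
  Finset.sum_eq_zero fun _ _ => ind_false fun hf => hf u u h rfl

theorem cnt_congr {A B : V → V → Prop} (h : ∀ u w, A u w ↔ B u w) (x : ℕ) : cnt A x = cnt B x := by
  have : A = B := by funext u w; exact propext (h u w)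
  rw [this]

theorem cnt_cli_zero (x : ℕ) : cnt (cli (∅ : Finset V)) x = (x : ℝ) ^ Fintype.card V := by
  unfold cnt
  have h : ∀ f : V → Fin x, ind (Good (cli (∅ : Finset V)) f) = 1 := fun f =>
    ind_true fun u w h => absurd h.1 (Finset.notMem_empty u)
  rw [Finset.sum_congr rfl (fun f _ => h f)]
  simp

theorem cnt_cli_insert {K : Finset V} {v : V} (hv : v ∉ K) (x : ℕ) :
    (x : ℝ) * cnt (cli (insert v K)) x = (x - K.card) * cnt (cli K) x := by
  have h0 : ¬ cli (insert v K) v v := fun h => h.2.2 rfl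
  rw [step1 _ h0]
  have h1 : nbr (cli (insert v K)) v = K := by
    ext z
    rw [mem_nbr]
    simp only [cli, mem_insert]
    constructor
    · rintro ⟨hz, h | h⟩
      · exact h.1.resolve_left hz
      · exact h.2.1.resolve_left hz
    · intro hz
      have : z ≠ v := fun h => hv (h ▸ hz)
      exact ⟨this, Or.inl ⟨Or.inr hz, Or.inl trivial, this⟩⟩
  have h2 : ∀ u w, del (cli (insert v K)) v u w ↔ cli K u w := by
    intro u w
    simp only [del, cli, mem_insert]
    constructor
    · rintro ⟨hu, hw, h1, h2, h3⟩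
      exact ⟨h1.resolve_left hu, h2.resolve_left hw, h3⟩
    · rintro ⟨h1, h2, h3⟩
      exact ⟨fun h => hv (h ▸ h1), fun h => hv (h ▸ h2), Or.inr h1, Or.inr h2, h3⟩
  have h3 : del (cli (insert v K)) v = cli K := by funext u w; exact propext (h2 u w)
  rw [h1, h3]
  unfold cnt
  rw [Finset.mul_sum]
  refine Finset.sum_congr rfl fun f _ => ?_
  by_cases hf : Good (cli K) f
  · have : (K.image f).card = K.card := by
      refine Finset.card_image_of_injOn fun a ha b hb hab => ?_
      by_contra hne
      exact hf a b ⟨ha, hb, hne⟩ hab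
    rw [this]; ring
  · rw [ind_false hf]; ring

/-- The number of proper maps for which `y`, `z` collide and nothing in between does. -/
def pr (A : V → V → Prop) (N : Finset V) (y z : V) (x : ℕ) : ℝ :=
  ∑ f : V → Fin x, ind (Good A f ∧ f y = f z ∧ ∀ z' ∈ N, y < z' → z' < z → f z' ≠ f z)

theorem sum_coll_eq (A : V → V → Prop) (N : Finset V) (x : ℕ) :
    ∑ f : V → Fin x, ind (Good A f) * ((N.card : ℝ) - (N.image f).card) =
      ∑ y ∈ N, ∑ z ∈ N.filter (fun z => y < z), pr A N y z x := by
  unfold pr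
  simp only [card_sub_image, Finset.mul_sum]
  rw [Finset.sum_comm]
  refine Finset.sum_congr rfl fun y _ => ?_
  rw [Finset.sum_comm]
  refine Finset.sum_congr rfl fun z _ => Finset.sum_congr rfl fun f _ => ?_
  rw [← ind_and]

theorem main_ind {K : Finset V} {x : ℕ} (hx1 : 1 ≤ x) (hxV : Fintype.card V ≤ x + 1) :
    ∀ n : ℕ, ∀ T : Finset V, T.card ≤ n → Disjoint T K → ∀ A : V → V → Prop,
    (∀ u w, A u w → (u ∈ T ∨ u ∈ K) ∧ (w ∈ T ∨ w ∈ K)) →
    (∀ u ∈ K, ∀ w ∈ K, u ≠ w → A u w) →
    cnt (cli K) (x + 1) * cnt A x ≤ cnt (cli K) x * cnt A (x + 1) := by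
  intro n
  induction n with
  | zero =>
    intro T hT hTK A hsupp hcl
    by_cases hloop : ∃ u, A u u
    · obtain ⟨u, hu⟩ := hloop
      rw [cnt_eq_zero hu, cnt_eq_zero hu, mul_zero, mul_zero]
    · have hT0 : T = ∅ := Finset.card_eq_zero.1 (Nat.le_zero.1 hT)
      have hA : A = cli K := by
        funext u w
        refine propext ⟨fun h => ?_, fun h => hcl u h.1 w h.2.1 h.2.2⟩
        have := hsupp u w h
        rw [hT0] at this
        refine ⟨this.1.resolve_left (Finset.notMem_empty u),
          this.2.resolve_left (Finset.notMem_empty w), ?_⟩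
        rintro rfl
        exact hloop ⟨u, h⟩
      rw [hA, mul_comm]
  | succ n ih =>
    intro T hT hTK A hsupp hcl
    by_cases hloop : ∃ u, A u u
    · obtain ⟨u, hu⟩ := hloop
      rw [cnt_eq_zero hu, cnt_eq_zero hu, mul_zero, mul_zero]
    push Not at hloop
    rcases T.eq_empty_or_nonempty with hT0 | ⟨v, hvT⟩
    · exact ih T (by rw [hT0]; simp) hTK A hsupp hcl
    have hvK : v ∉ K := Finset.disjoint_left.1 hTK hvT
    have hx0 : (0 : ℝ) < x := by exact_mod_cast hx1
    set α := cnt (cli K) x with hα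
    set β := cnt (cli K) (x + 1) with hβ
    have hα0 : 0 ≤ α := cnt_nonneg _ _
    have hβ0 : 0 ≤ β := cnt_nonneg _ _
    set N := nbr A v with hN
    set A' := del A v with hA'
    have hcard : (T.erase v).card ≤ n := by
      rw [Finset.card_erase_of_mem hvT]; omega
    have hNsupp : ∀ y ∈ N, y ∈ T.erase v ∨ y ∈ K := by
      intro y hy
      rw [hN, mem_nbr] at hy
      have : y ∈ T ∨ y ∈ K := by
        rcases hy.2 with h | h
        · exact (hsupp _ _ h).1
        · exact (hsupp _ _ h).2
      exact this.imp (fun h => Finset.mem_erase.2 ⟨hy.1, h⟩) id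
    have hA'supp : ∀ u w, A' u w → (u ∈ T.erase v ∨ u ∈ K) ∧ (w ∈ T.erase v ∨ w ∈ K) := by
      rintro u w ⟨hu, hw, h⟩
      exact ⟨(hsupp u w h).1.imp (fun h => Finset.mem_erase.2 ⟨hu, h⟩) id,
        (hsupp u w h).2.imp (fun h => Finset.mem_erase.2 ⟨hw, h⟩) id⟩
    have hA'cl : ∀ u ∈ K, ∀ w ∈ K, u ≠ w → A' u w := fun u hu w hw huw =>
      ⟨fun h => hvK (h ▸ hu), fun h => hvK (h ▸ hw), hcl u hu w hw huw⟩
    have hdis : Disjoint (T.erase v) K := hTK.mono_left (Finset.erase_subset _ _)
    have ih1 : β * cnt A' x ≤ α * cnt A' (x + 1) := ih _ hcard hdis A' hA'supp hA'cl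
    -- merging
    have hmerge : ∀ a b : V, ∀ Z : Finset V, a ∉ K → a ∈ N → b ∈ N → a ≠ b → Z ⊆ N → a ∉ Z →
        β * cnt (mrg A' a b Z) x ≤ α * cnt (mrg A' a b Z) (x + 1) := by
      intro a b Z haK haN hbN hab hZ haZ
      have hcard' : ((T.erase v).erase a).card ≤ n :=
        (Finset.card_le_card (Finset.erase_subset _ _)).trans hcard
      refine ih _ hcard' (hdis.mono_left (Finset.erase_subset _ _)) _ ?_ ?_
      · have key : ∀ u, u ≠ a → (u ∈ T.erase v ∨ u ∈ K) → (u ∈ (T.erase v).erase a ∨ u ∈ K) :=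
          fun u hu h => h.imp (fun h => Finset.mem_erase.2 ⟨hu, h⟩) id
        rintro u w (⟨hu, hw, h⟩ | ⟨rfl, hw, h⟩ | ⟨rfl, hw⟩)
        · exact ⟨key _ hu (hA'supp u w h).1, key _ hw (hA'supp u w h).2⟩
        · refine ⟨key _ hab.symm (hNsupp _ hbN), key _ hw ?_⟩
          rcases h with h | h
          · exact (hA'supp _ _ h).2
          · exact (hA'supp _ _ h).1
        · exact ⟨key _ hab.symm (hNsupp _ hbN),
            key _ (fun h => haZ (h ▸ hw)) (hNsupp _ (hZ hw))⟩
      · intro u hu w hw huw
        exact Or.inl ⟨fun h => haK (h ▸ hu), fun h => haK (h ▸ hw), hA'cl u hu w hw huw⟩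
    have hpair : ∀ y ∈ N, ∀ z ∈ N, y < z →
        β * (x * pr A' N y z x) ≤ α * (((x + 1 : ℕ) : ℝ) * pr A' N y z (x + 1)) := by
      intro y hy z hz hyz
      set Z := N.filter (fun z' => y < z' ∧ z' < z) with hZ
      have hZN : Z ⊆ N := Finset.filter_subset _ _
      have hyZ : y ∉ Z := fun h => lt_irrefl _ (Finset.mem_filter.1 h).2.1
      have hzZ : z ∉ Z := fun h => lt_irrefl _ (Finset.mem_filter.1 h).2.2
      have hA'y : ∀ u, ¬ A' u u := fun u h => hloop u h.2.2
      by_cases hyK : y ∈ K
      · by_cases hzK : z ∈ K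
        · have h0 : ∀ x' : ℕ, pr A' N y z x' = 0 := fun x' =>
            Finset.sum_eq_zero fun f _ => ind_false fun h =>
              h.1 y z (hA'cl y hyK z hzK hyz.ne) h.2.1
          rw [h0, h0]; simp
        · have h1 : ∀ x' : ℕ, (x' : ℝ) * pr A' N y z x' = cnt (mrg A' z y Z) x' := by
            intro x'
            rw [← merge (hA'y z) hyz.ne' hzZ x']
            unfold pr
            congr 1
            refine Finset.sum_congr rfl fun f _ => ind_congr ?_
            refine and_congr_right fun _ => ?_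
            constructor
            · rintro ⟨h2, h3⟩
              refine ⟨h2.symm, fun z' hz' => ?_⟩
              rw [hZ, mem_filter] at hz'
              rw [h2]
              exact h3 z' hz'.1 hz'.2.1 hz'.2.2
            · rintro ⟨h2, h3⟩
              refine ⟨h2.symm, fun z' hz' hyz' hz'z => ?_⟩
              rw [h2]
              exact h3 z' (Finset.mem_filter.2 ⟨hz', hyz', hz'z⟩)
          rw [h1, h1]
          exact hmerge z y Z hzK hz hy hyz.ne' hZN hzZ
      · have h1 : ∀ x' : ℕ, (x' : ℝ) * pr A' N y z x' = cnt (mrg A' y z Z) x' := by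
          intro x'
          rw [← merge (hA'y y) hyz.ne hyZ x']
          unfold pr
          congr 1
          refine Finset.sum_congr rfl fun f _ => ind_congr ?_
          refine and_congr_right fun _ => and_congr_right fun _ => ?_
          constructor
          · intro h3 z' hz'
            rw [hZ, mem_filter] at hz'
            exact h3 z' hz'.1 hz'.2.1 hz'.2.2
          · intro h3 z' hz' hyz' hz'z
            exact h3 z' (Finset.mem_filter.2 ⟨hz', hyz', hz'z⟩)
        rw [h1, h1]
        exact hmerge y z Z hyK hy hz hyz.ne hZN hyZ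
    -- the sum of all pairs
    have hS : ∀ x' : ℕ, (x' : ℝ) * cnt A x' = (x' - N.card) * cnt A' x' +
        ∑ y ∈ N, ∑ z ∈ N.filter (fun z => y < z), pr A' N y z x' := by
      intro x'
      rw [step1 A (hloop v) x', ← sum_coll_eq]
      unfold cnt
      rw [Finset.mul_sum, ← Finset.sum_add_distrib]
      exact Finset.sum_congr rfl fun f _ => by ring
    set S : ℕ → ℝ := fun x' => ∑ y ∈ N, ∑ z ∈ N.filter (fun z => y < z), pr A' N y z x' with hSdef
    have hS1 : β * (x * S x) ≤ α * (((x + 1 : ℕ) : ℝ) * S (x + 1)) := by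
      simp only [hSdef, Finset.mul_sum]
      refine Finset.sum_le_sum fun y hy => Finset.sum_le_sum fun z hz => ?_
      rw [mem_filter] at hz
      exact hpair y hy z hz.1 hz.2
    have hcoll : 2 * ((x + 1 : ℕ) : ℝ) * S (x + 1) ≤
        N.card * ((((x + 1 : ℕ) : ℝ) - 2) * cnt A' (x + 1)) := by
      have := sum_coll_le (A := A) (v := v) hloop hxV
      rw [sum_coll_eq] at this
      exact this
    have hm : (N.card : ℝ) ≤ x := by
      have h1 : N ⊆ univ.erase v := fun z hz =>
        Finset.mem_erase.2 ⟨(mem_nbr.1 hz).1, Finset.mem_univ _⟩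
      have h2 := Finset.card_le_card h1
      rw [Finset.card_erase_of_mem (Finset.mem_univ v), Finset.card_univ] at h2
      have h3 : N.card ≤ x := by omega
      exact_mod_cast h3
    have e1 := hS x
    have e2 := hS (x + 1)
    change (x : ℝ) * cnt A x = (x - N.card) * cnt A' x + S x at e1
    change ((x + 1 : ℕ) : ℝ) * cnt A (x + 1) = (((x + 1 : ℕ) : ℝ) - N.card) * cnt A' (x + 1) +
      S (x + 1) at e2
    push_cast at e2 hcoll hS1
    have hm0 : (0 : ℝ) ≤ N.card := Nat.cast_nonneg _
    generalize (N.card : ℝ) = m at *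
    generalize cnt A x = c0 at *
    generalize cnt A (x + 1) = c1 at *
    generalize hb0 : cnt A' x = b0 at *
    generalize hb1 : cnt A' (x + 1) = b1 at *
    generalize S x = s0 at *
    generalize S (x + 1) = s1 at *
    have hb1' : 0 ≤ b1 := by rw [← hb1]; exact cnt_nonneg _ _
    generalize (x : ℝ) = X at *
    have hX1 : 0 < X + 1 := by linarith
    -- multiply by X ^ 2 (X + 1) ^ 2
    have hpos : 0 < X ^ 2 * (X + 1) ^ 2 := by positivity
    refine le_of_mul_le_mul_left ?_ hpos
    have l1 : X ^ 2 * (X + 1) ^ 2 * (β * c0) =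
        (X + 1) ^ 2 * (X * (X - m) * (β * b0) + β * (X * s0)) := by
      have : X ^ 2 * (X + 1) ^ 2 * (β * c0) = (X + 1) ^ 2 * X * β * (X * c0) := by ring
      rw [this, e1]; ring
    have l2 : X ^ 2 * (X + 1) ^ 2 * (α * c1) =
        X ^ 2 * ((X + 1) * (X + 1 - m) * (α * b1) + α * ((X + 1) * s1)) := by
      have : X ^ 2 * (X + 1) ^ 2 * (α * c1) = X ^ 2 * (X + 1) * α * ((X + 1) * c1) := by ring
      rw [this, e2]; ring
    rw [l1, l2]
    have i1 : X * (X - m) * (β * b0) ≤ X * (X - m) * (α * b1) :=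
      mul_le_mul_of_nonneg_left ih1 (mul_nonneg hx0.le (by linarith))
    have i2 : (X + 1) ^ 2 * (X * (X - m) * (β * b0) + β * (X * s0)) ≤
        (X + 1) ^ 2 * (X * (X - m) * (α * b1) + α * ((X + 1) * s1)) :=
      mul_le_mul_of_nonneg_left (by linarith) (by positivity)
    refine i2.trans ?_
    have i3 : 2 * (α * ((X + 1) * s1)) ≤ m * (X - 1) * (α * b1) := by
      have := mul_le_mul_of_nonneg_left hcoll hα0
      nlinarith
    have hab : 0 ≤ α * b1 := mul_nonneg hα0 hb1'
    generalize α * ((X + 1) * s1) = s at *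
    generalize α * b1 = a at *
    have i4 : (2 * X + 1) * (2 * s) ≤ (2 * X + 1) * (m * (X - 1) * a) :=
      mul_le_mul_of_nonneg_left i3 (by linarith)
    have i5 : (2 * X + 1) * (m * (X - 1) * a) ≤ 2 * (X * (X + 1) * (m * a)) := by
      have hma : 0 ≤ m * a := mul_nonneg hm0 hab
      nlinarith
    nlinarith

theorem cnt_cli_ratio {x : ℕ} (hx : 1 ≤ x) (K : Finset V) :
    cnt (cli K) x * (((x : ℝ) + 1) ^ (Fintype.card V - K.card) * (x + 1)) =
      cnt (cli K) (x + 1) * ((x : ℝ) ^ (Fintype.card V - K.card) * (x + 1 - K.card)) := by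
  have hx0 : (0 : ℝ) < x := by exact_mod_cast hx
  induction K using Finset.induction_on with
  | empty =>
    rw [cnt_cli_zero, cnt_cli_zero]
    simp only [Finset.card_empty, Nat.sub_zero]
    push_cast
    ring
  | insert v K hv ih =>
    have h1 := cnt_cli_insert hv x
    have h2 := cnt_cli_insert hv (x + 1)
    have hlt : K.card + 1 ≤ Fintype.card V := by
      rw [← Finset.card_insert_of_notMem hv]
      exact Finset.card_le_univ _
    rw [Finset.card_insert_of_notMem hv]
    obtain ⟨k, hk⟩ : ∃ k, Fintype.card V - K.card = k + 1 :=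
      ⟨Fintype.card V - K.card - 1, by omega⟩
    have hk' : Fintype.card V - (K.card + 1) = k := by omega
    rw [hk] at ih
    rw [hk']
    push_cast at h2 ⊢
    have hne : (x : ℝ) * (x + 1) ≠ 0 := by positivity
    refine mul_left_cancel₀ hne ?_
    calc (x : ℝ) * (x + 1) * (cnt (cli (insert v K)) x * ((x + 1) ^ k * (x + 1)))
        = (x * cnt (cli (insert v K)) x) * ((x + 1) ^ (k + 1) * (x + 1)) := by ring
      _ = (x - K.card) * (cnt (cli K) x * ((x + 1) ^ (k + 1) * (x + 1))) := by rw [h1]; ring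
      _ = (x - K.card) * (cnt (cli K) (x + 1) * (x ^ (k + 1) * (x + 1 - K.card))) := by rw [ih]
      _ = x * ((x + 1 - K.card) * cnt (cli K) (x + 1)) * (x ^ k * (x - K.card)) := by ring
      _ = x * ((x + 1) * cnt (cli (insert v K)) (x + 1)) * (x ^ k * (x - K.card)) := by rw [h2]
      _ = x * (x + 1) * (cnt (cli (insert v K)) (x + 1) * (x ^ k * (x + 1 - (K.card + 1)))) := by
          ring

theorem cnt_cli_pos {x : ℕ} (hx : 1 ≤ x) (hV : Fintype.card V ≤ x) (K : Finset V) :
    0 < cnt (cli K) x := by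
  have hx0 : (0 : ℝ) < x := by exact_mod_cast hx
  induction K using Finset.induction_on with
  | empty => rw [cnt_cli_zero]; positivity
  | insert v K hv ih =>
    have h1 := cnt_cli_insert hv x
    have hlt : K.card + 1 ≤ Fintype.card V := by
      rw [← Finset.card_insert_of_notMem hv]
      exact Finset.card_le_univ _
    have h2 : (0 : ℝ) < x - K.card := by
      have : K.card + 1 ≤ x := hlt.trans hV
      have : ((K.card + 1 : ℕ) : ℝ) ≤ x := by exact_mod_cast this
      push_cast at this
      linarith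
    have h3 : 0 < (x : ℝ) * cnt (cli (insert v K)) x := by rw [h1]; positivity
    exact pos_of_mul_pos_right h3 hx0.le

theorem final {A : V → V → Prop} (K : Finset V) (hcl : ∀ u ∈ K, ∀ w ∈ K, u ≠ w → A u w) {x : ℕ}
    (hx : 1 ≤ x) (hV : Fintype.card V ≤ x + 1) :
    cnt A x ≤ (1 - (K.card : ℝ) / ((x + 1 : ℕ) : ℝ)) *
      (1 - 1 / ((x + 1 : ℕ) : ℝ)) ^ (Fintype.card V - K.card) * cnt A (x + 1) := by
  have hx0 : (0 : ℝ) < x := by exact_mod_cast hx
  have h1 := main_ind (K := K) hx hV _ (univ \ K) le_rfl Finset.sdiff_disjoint A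
    (fun u w _ => ⟨by by_cases h : u ∈ K <;> simp [h], by by_cases h : w ∈ K <;> simp [h]⟩) hcl
  have h2 := cnt_cli_ratio hx K
  have h3 := cnt_cli_pos (x := x + 1) (by omega) hV K
  have hX : (0 : ℝ) < x + 1 := by linarith
  push_cast
  have e1 : (1 - (K.card : ℝ) / (x + 1)) * (1 - 1 / ((x : ℝ) + 1)) ^ (Fintype.card V - K.card) =
      ((x : ℝ) ^ (Fintype.card V - K.card) * (x + 1 - K.card)) /
        (((x : ℝ) + 1) ^ (Fintype.card V - K.card) * (x + 1)) := by
    have e2 : (1 - 1 / ((x : ℝ) + 1)) = x / (x + 1) := by field_simp; ring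
    have e3 : (1 - (K.card : ℝ) / (x + 1)) = (x + 1 - K.card) / (x + 1) := by field_simp
    rw [e2, e3, div_pow]
    field_simp
  rw [e1]
  refine le_of_mul_le_mul_left ?_ h3
  calc cnt (cli K) (x + 1) * cnt A x ≤ cnt (cli K) x * cnt A (x + 1) := h1
    _ = cnt (cli K) (x + 1) * (((x : ℝ) ^ (Fintype.card V - K.card) * (x + 1 - K.card)) /
        (((x : ℝ) + 1) ^ (Fintype.card V - K.card) * (x + 1)) * cnt A (x + 1)) := by
        have : cnt (cli K) x = cnt (cli K) (x + 1) *
          (((x : ℝ) ^ (Fintype.card V - K.card) * (x + 1 - K.card)) /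
          (((x : ℝ) + 1) ^ (Fintype.card V - K.card) * (x + 1))) := by
          field_simp
          linarith
        rw [this]; ring

end two

end

end Pool.Agent.L7lead.Shameful
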